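import Pool.Agent.Helper98.EX.Stmts

/-!
# MP_157eb8_pr, module HITGEO: the geometric trick
-/

set_option autoImplicit false

namespace Pool.Agent.Helper98.EX

open Finset

/-- killed evolution -/
noncomputable def hg_kl {N : ℕ} (r l : ℕ → ℝ) (S : Finset ℕ) (T : Set (Cfg N)) :
    ℕ → (Cfg N → ℝ) → Cfg N → ℝ
  | 0, f, η => (1 - ind T η) * f η
  | m + 1, f, η => (1 - ind T η) * stp r l S (hg_kl r l S T m f) η

section

variable {N : ℕ} {r l : ℕ → ℝ} {S : Finset ℕ} {T : Set (Cfg N)}

theorem hg_idem (η : Cfg N) : (1 - ind T η) * (1 - ind T η) = 1 - ind T η := by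
  unfold ind
  split_ifs <;> norm_num

theorem hg_nonneg (η : Cfg N) : 0 ≤ 1 - ind T η := by
  linarith [ind_le_one T η]

theorem hg_nohit (m b : ℕ) :
    nohit r l S T (m + b) = hg_kl r l S T m (nohit r l S T b) := by
  induction m with
  | zero =>
    funext η
    rw [Nat.zero_add]
    cases b with
    | zero =>
      show 1 - ind T η = (1 - ind T η) * (1 - ind T η)
      rw [hg_idem]
    | succ b =>
      show (1 - ind T η) * stp r l S (nohit r l S T b) η =
        (1 - ind T η) * ((1 - ind T η) * stp r l S (nohit r l S T b) η)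
      rw [← mul_assoc, hg_idem]
  | succ m ih =>
    funext η
    rw [Nat.succ_add_eq_add_succ, Nat.add_succ]
    show (1 - ind T η) * stp r l S (nohit r l S T (m + b)) η = _
    rw [ih]
    rfl

theorem hg_one (m : ℕ) : nohit r l S T m = hg_kl r l S T m (fun _ => 1) := by
  induction m with
  | zero =>
    funext η
    show 1 - ind T η = (1 - ind T η) * 1
    rw [mul_one]
  | succ m ih =>
    funext η
    show (1 - ind T η) * stp r l S (nohit r l S T m) η = _
    rw [ih]
    rfl

theorem hg_stp_mono (h : Adm N r l) {k : ℕ} {f g : Cfg N → ℝ}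
    (hfg : ∀ η : Cfg N, ht η 0 = k → f η ≤ g η) {η : Cfg N} (hη : ht η 0 = k) :
    stp r l S f η ≤ stp r l S g η :=
  stp_couple h (hfg η hη) (fun x _ _ => hfg _ ((ht_RmS_zero S η x).trans hη))
    (fun x _ _ => hfg _ ((ht_LmS_zero S η x).trans hη))

theorem hg_mono (h : Adm N r l) {k : ℕ} {f g : Cfg N → ℝ}
    (hfg : ∀ η : Cfg N, ht η 0 = k → f η ≤ g η) (m : ℕ) : ∀ {η : Cfg N}, ht η 0 = k →
    hg_kl r l S T m f η ≤ hg_kl r l S T m g η := by
  induction m with
  | zero =>
    intro η hη
    exact mul_le_mul_of_nonneg_left (hfg η hη) (hg_nonneg η)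
  | succ m ih =>
    intro η hη
    exact mul_le_mul_of_nonneg_left (hg_stp_mono h (fun ξ hξ => ih hξ) hη) (hg_nonneg η)

theorem hg_sub (f g : Cfg N → ℝ) (m : ℕ) :
    hg_kl r l S T m (fun η => f η - g η) = fun η => hg_kl r l S T m f η - hg_kl r l S T m g η := by
  induction m with
  | zero =>
    funext η
    show (1 - ind T η) * (f η - g η) = (1 - ind T η) * f η - (1 - ind T η) * g η
    ring
  | succ m ih =>
    funext η
    show (1 - ind T η) * stp r l S (hg_kl r l S T m (fun η => f η - g η)) η = _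
    rw [ih, stp_sub]
    show _ = (1 - ind T η) * stp r l S (hg_kl r l S T m f) η -
      (1 - ind T η) * stp r l S (hg_kl r l S T m g) η
    ring

theorem hg_smul (c : ℝ) (f : Cfg N → ℝ) (m : ℕ) :
    hg_kl r l S T m (fun η => c * f η) = fun η => c * hg_kl r l S T m f η := by
  induction m with
  | zero =>
    funext η
    show (1 - ind T η) * (c * f η) = c * ((1 - ind T η) * f η)
    ring
  | succ m ih =>
    funext η
    show (1 - ind T η) * stp r l S (hg_kl r l S T m (fun η => c * f η)) η = _
    rw [ih, stp_smul]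
    show _ = c * ((1 - ind T η) * stp r l S (hg_kl r l S T m f) η)
    ring

theorem hg_le_ev (h : Adm N r l) {f : Cfg N → ℝ} (hf : ∀ η, 0 ≤ f η) (m : ℕ) :
    ∀ η : Cfg N, hg_kl r l S T m f η ≤ ev r l (fun _ => S) m f η := by
  induction m with
  | zero =>
    intro η
    show (1 - ind T η) * f η ≤ f η
    have := ind_nonneg T η
    nlinarith [hf η]
  | succ m ih =>
    intro η
    rw [ev_succ]
    show (1 - ind T η) * stp r l S (hg_kl r l S T m f) η ≤ stp r l S (ev r l (fun _ => S) m f) η
    have h1 : stp r l S (hg_kl r l S T m f) η ≤ stp r l S (ev r l (fun _ => S) m f) η :=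
      stp_mono h ih η
    have h2 : 0 ≤ stp r l S (ev r l (fun _ => S) m f) η :=
      stp_nonneg h (fun ξ => ev_nonneg h hf _ m ξ) η
    have h3 := ind_nonneg T η
    have h4 := hg_nonneg (T := T) η
    nlinarith

theorem hg_nohit_le (h : Adm N r l) (m : ℕ) : ∀ η : Cfg N, nohit r l S T m η ≤ 1 := by
  intro η
  rw [hg_one]
  have := hg_le_ev (S := S) (T := T) h (f := fun _ => (1 : ℝ)) (fun _ => zero_le_one) m η
  rwa [ev_const] at this

end

theorem hg_ht_bot (N k : ℕ) (hk : k ≤ N) : ht (bot N k) 0 = k := by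
  unfold ht
  rw [← Finset.sum_filter]
  simp only [Finset.sum_const, smul_eq_mul, mul_one]
  have : (Finset.Ico 0 N).filter (fun i => occ (bot N k) i = true) = Finset.range k := by
    ext i
    simp only [Finset.mem_filter, Finset.mem_Ico, Finset.mem_range]
    constructor
    · rintro ⟨⟨_, h1⟩, h2⟩
      rw [occ_lt h1] at h2
      simpa [bot] using h2
    · intro h
      have h1 : i < N := lt_of_lt_of_le h hk
      refine ⟨⟨Nat.zero_le _, h1⟩, ?_⟩
      rw [occ_lt h1]
      simpa [bot] using h
  rw [this, Finset.card_range]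

theorem st_HITGEO (hT : ST_TIME) : ST_HITGEO := by
  intro N k r l A b0 m2 J c1 e hk hAdm hInc hc0 hc1 he hA hpr
  have hb := hg_ht_bot N k hk
  have hcompl : (ind Aᶜ : Cfg N → ℝ) = fun η => (1 : ℝ) - ind A η := by
    funext η
    unfold ind
    by_cases h : η ∈ A <;> simp [h]
  have hprm : ∀ m, m2 ≤ m → pr r l (fun _ => full N) m Aᶜ (bot N k) ≤ e := by
    intro m hm
    have h1 := hT N k r l m2 m (ind A) hk hAdm hInc hm
    unfold pr at hpr ⊢
    rw [hcompl] at hpr ⊢
    rw [ev_sub (fun _ => full N) m (fun _ => (1 : ℝ)) (ind A), ev_const]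
    rw [ev_sub (fun _ => full N) m2 (fun _ => (1 : ℝ)) (ind A), ev_const] at hpr
    linarith
  have hstep : ∀ m, m2 ≤ m → nohit r l (full N) {top N k} (m + b0) (bot N k) ≤
      (1 - c1) * nohit r l (full N) {top N k} m (bot N k) + c1 * e := by
    intro m hm
    rw [hg_nohit]
    have h1 : ∀ η : Cfg N, ht η 0 = k → nohit r l (full N) {top N k} b0 η ≤
        (fun _ => (1 : ℝ)) η - (fun ξ => c1 * ind A ξ) η := by
      intro η hη
      by_cases hηA : η ∈ A
      · have h2 := hA η hηA hη
        have h3 : ind A η = 1 := by simp [ind, hηA]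
        show _ ≤ 1 - c1 * ind A η
        rw [h3]
        linarith
      · have h3 : ind A η = 0 := by simp [ind, hηA]
        show _ ≤ 1 - c1 * ind A η
        rw [h3]
        have := hg_nohit_le (S := full N) (T := {top N k}) hAdm b0 η
        linarith
    have h2 := hg_mono (S := full N) (T := {top N k}) hAdm h1 m hb
    rw [hg_sub, hg_smul] at h2
    have h3 : (ind A : Cfg N → ℝ) = fun η => (fun _ => (1 : ℝ)) η - ind Aᶜ η := by
      funext η
      rw [hcompl]
      ring
    have h4 : hg_kl r l (full N) {top N k} m (ind A) (bot N k) =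
        hg_kl r l (full N) {top N k} m (fun _ => (1 : ℝ)) (bot N k) -
          hg_kl r l (full N) {top N k} m (ind Aᶜ) (bot N k) := by
      rw [h3, hg_sub]
    have h5 := hg_le_ev (S := full N) (T := {top N k}) hAdm (f := ind Aᶜ) (ind_nonneg Aᶜ) m
      (bot N k)
    have h6 : hg_kl r l (full N) {top N k} m (ind Aᶜ) (bot N k) ≤ e := h5.trans (hprm m hm)
    rw [hg_one m]
    have h7 : hg_kl r l (full N) {top N k} m (nohit r l (full N) {top N k} b0) (bot N k) ≤
        hg_kl r l (full N) {top N k} m (fun _ => (1 : ℝ)) (bot N k) -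
          c1 * hg_kl r l (full N) {top N k} m (ind A) (bot N k) := h2
    rw [h4] at h7
    nlinarith
  have hmain : nohit r l (full N) {top N k} (m2 + J * b0) (bot N k) - e ≤ (1 - c1) ^ J := by
    induction J with
    | zero =>
      have := hg_nohit_le (S := full N) (T := {top N k}) hAdm (m2 + 0 * b0) (bot N k)
      rw [pow_zero]
      linarith
    | succ J ih =>
      have h1 := hstep (m2 + J * b0) (Nat.le_add_right _ _)
      have h2 : m2 + (J + 1) * b0 = m2 + J * b0 + b0 := by ring
      rw [h2]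
      have h3 : 0 ≤ 1 - c1 := by linarith
      have h4 := mul_le_mul_of_nonneg_left ih h3
      rw [pow_succ]
      nlinarith
  linarith

end Pool.Agent.Helper98.EX
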