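import Pool.Agent.Helper98.EX.Stmts3

set_option autoImplicit false

/-!
MP_157eb8_pr, module MAIN: the final theorem from the two cases.
-/

namespace Pool.Agent.Helper98.EX

open Finset MeasureTheory ProbabilityTheory Filter
open scoped Topology

/-- density bounds from liminf and limsup -/
theorem main_dens (k : ℕ → ℕ) (hk : ∀ N, k N ≤ N)
    (h1 : 0 < liminf (fun N => (k N : ℝ) / N) atTop)
    (h2 : limsup (fun N => (k N : ℝ) / N) atTop < 1) :
    ∃ c : ℝ, 0 < c ∧ ∃ N1 : ℕ, ∀ N, N1 ≤ N → c * N ≤ k N ∧ (k N : ℝ) ≤ (1 - c) * N := by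
  have hb0 : ∀ N : ℕ, 0 ≤ (k N : ℝ) / N := fun N => by positivity
  have hb1 : ∀ N : ℕ, (k N : ℝ) / N ≤ 1 := fun N => by
    refine div_le_one_of_le₀ ?_ (Nat.cast_nonneg _)
    exact_mod_cast hk N
  have hB1 : IsBoundedUnder (· ≤ ·) atTop (fun N : ℕ => (k N : ℝ) / N) :=
    isBoundedUnder_of ⟨1, hb1⟩
  have hB0 : IsBoundedUnder (· ≥ ·) atTop (fun N : ℕ => (k N : ℝ) / N) :=
    isBoundedUnder_of ⟨0, hb0⟩
  set L := liminf (fun N => (k N : ℝ) / N) atTop with hL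
  set U := limsup (fun N => (k N : ℝ) / N) atTop with hU
  have e1 : ∀ᶠ N : ℕ in atTop, L / 2 < (k N : ℝ) / N :=
    eventually_lt_of_lt_liminf (by linarith) hB0
  have e2 : ∀ᶠ N : ℕ in atTop, (k N : ℝ) / N < (1 + U) / 2 :=
    eventually_lt_of_limsup_lt (by linarith) hB1
  obtain ⟨N1, hN1⟩ := eventually_atTop.1 (e1.and e2)
  refine ⟨min (L / 2) ((1 - U) / 2), lt_min (by linarith) (by linarith), max N1 1, ?_⟩
  intro N hN
  obtain ⟨h3, h4⟩ := hN1 N ((le_max_left _ _).trans hN)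
  have hN0 : (0 : ℝ) < N := by
    have : 1 ≤ N := (le_max_right _ _).trans hN
    exact_mod_cast this
  rw [lt_div_iff₀ hN0] at h3
  rw [div_lt_iff₀ hN0] at h4
  constructor
  · exact (mul_le_mul_of_nonneg_right (min_le_left _ _) hN0.le).trans h3.le
  · refine h4.le.trans (mul_le_mul_of_nonneg_right ?_ hN0.le)
    have := min_le_right (L / 2) ((1 - U) / 2)
    linarith

theorem st_MAIN (hN : ST_MAINN) (hNN : ST_MAINNN) (hS : ST_STC) : ST_MAIN := by
  intro Ω _ P X s k hX hs hM hk h1 h2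
  have hrng : ∀ ω x, 0 < EE X ω x ∧ EE X ω x ≤ 1 := fun ω x => hX.rng x ω
  refine ⟨fun N hN1 ω => (hS N (k N) (EE X ω) hN1 (hk N) (hrng ω)).2.1, ?_⟩
  intro π hπ ε δ hε hε2 hδ
  have hC : CutGoal P X := by
    by_cases hc : ∀ t : ℝ, 0 < t → P {ω | X 0 ω < 1 / 2 + t} ≠ 0
    · exact hN Ω P X s hX hs hM hc
    · push Not at hc
      obtain ⟨t, ht, hPt⟩ := hc
      exact hNN Ω P X t hX ht hPt
  obtain ⟨c, hc, N1, hN1⟩ := main_dens k hk h1 h2
  rw [ENNReal.tendsto_nhds_zero]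
  intro e he
  obtain ⟨η, hη, hηe⟩ : ∃ η : ℝ, 0 < η ∧ ENNReal.ofReal η ≤ e := by
    by_cases h : e = ⊤
    · exact ⟨1, one_pos, by rw [h]; exact le_top⟩
    · exact ⟨e.toReal, ENNReal.toReal_pos he.ne' h, by rw [ENNReal.ofReal_toReal h]⟩
  obtain ⟨N0, hN0⟩ := hC c ε (min (δ / 15) (1 / 2)) η hc hε hε2
    (lt_min (by linarith) (by norm_num)) ((min_le_right _ _).trans_lt (by norm_num)) hη
  filter_upwards [eventually_ge_atTop (max (max N0 N1) 1)] with N hNN0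
  have hN0' : N0 ≤ N := ((le_max_left _ _).trans (le_max_left _ _)).trans hNN0
  have hN1' : N1 ≤ N := ((le_max_right _ _).trans (le_max_left _ _)).trans hNN0
  have hN1'' : 1 ≤ N := (le_max_right _ _).trans hNN0
  obtain ⟨h3, h4⟩ := hN1 N hN1'
  refine (measure_mono ?_).trans ((hN0 N (k N) hN0' h3 h4).trans hηe)
  intro ω hω
  simp only [Set.mem_ofPred_eq] at hω ⊢
  refine ⟨π N ω, hπ N hN1'' ω, ?_⟩
  intro hcon
  have h5 : 15 * min (δ / 15) (1 / 2) ≤ δ := by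
    have := min_le_left (δ / 15) (1 / 2 : ℝ)
    linarith
  linarith

end Pool.Agent.Helper98.EX
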