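import Pool.Agent.Helper98.EX.SLDefs

/-!
# MP_157eb8_pr, module SLA: deterministic facts on the streaming pattern
-/

set_option autoImplicit false

namespace Pool.Agent.Helper98.EX

open Finset

namespace LD

variable {L : LD}

theorem sla_u_lt (hv : L.Valid) {c c' : ℕ} (h : c < c') (h' : c' ≤ L.M) : L.u c < L.u c' := by
  induction c' with
  | zero => omega
  | succ d ih =>
    rcases Nat.lt_or_ge c d with h1 | h1
    · have h2 := ih h1 (by omega)
      have h3 := hv.step d (by omega) (by omega)
      omega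
    · have h2 : c = d := by omega
      subst h2
      rcases Nat.eq_zero_or_pos c with h3 | h3
      · subst h3
        exact hv.first (by omega)
      · have := hv.step c h3 (by omega)
        omega

theorem sla_u_le (hv : L.Valid) {c c' : ℕ} (h : c ≤ c') (h' : c' ≤ L.M) : L.u c ≤ L.u c' := by
  rcases Nat.lt_or_ge c c' with h1 | h1
  · exact (sla_u_lt hv h1 h').le
  · rw [show c = c' by omega]

theorem sla_e_mono (hv : L.Valid) {c c' : ℕ} (h : c ≤ c') : L.e c ≤ L.e c' := by
  have hM := hv.uM
  unfold LD.e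
  by_cases h1 : c' ≤ L.M
  · rw [if_pos h1, if_pos (h.trans h1)]
    exact sla_u_le hv h h1
  · rw [if_neg h1]
    by_cases h2 : c ≤ L.M
    · rw [if_pos h2]
      have := sla_u_le hv h2 le_rfl
      omega
    · rw [if_neg h2]

theorem sla_b_ge (L : LD) (i : ℕ) : 1 ≤ L.b i := by
  unfold LD.b
  omega

theorem sla_b_le (L : LD) (i : ℕ) : L.b i ≤ L.M + 1 := by
  unfold LD.b
  have h := Finset.card_filter_le (Finset.Icc 1 L.M) (fun c => L.u c ≤ L.p i)
  rw [Nat.card_Icc] at h
  omega

theorem sla_b_spec (hv : L.Valid) {c : ℕ} (h1 : 1 ≤ c) (h2 : c ≤ L.M) (i : ℕ) :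
    L.u c ≤ L.p i ↔ c < L.b i := by
  unfold LD.b
  constructor
  · intro h
    have hs : Finset.Icc 1 c ⊆ (Finset.Icc 1 L.M).filter (fun c => L.u c ≤ L.p i) := by
      intro d hd
      rw [Finset.mem_Icc] at hd
      rw [Finset.mem_filter, Finset.mem_Icc]
      exact ⟨⟨hd.1, hd.2.trans h2⟩, (sla_u_le hv hd.2 h2).trans h⟩
    have := Finset.card_le_card hs
    rw [Nat.card_Icc] at this
    omega
  · intro h
    by_contra hn
    have hs : (Finset.Icc 1 L.M).filter (fun c => L.u c ≤ L.p i) ⊆ Finset.Icc 1 (c - 1) := by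
      intro d hd
      rw [Finset.mem_filter, Finset.mem_Icc] at hd
      rw [Finset.mem_Icc]
      refine ⟨hd.1.1, ?_⟩
      by_contra hd2
      have := sla_u_le hv (show c ≤ d by omega) hd.1.2
      omega
    have := Finset.card_le_card hs
    rw [Nat.card_Icc] at this
    omega

theorem sla_p (hv : L.Valid) {i : ℕ} (h1 : 1 ≤ i) (h2 : i ≤ L.n) :
    L.A ≤ L.p i ∧ L.p i < L.x0 ∧ L.p i + i = L.A + L.n := by
  have := hv.n1
  unfold LD.p
  omega

theorem sla_b_anti (L : LD) {i i' : ℕ} (h : i ≤ i') : L.b i' ≤ L.b i := by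
  unfold LD.b
  have hs : (Finset.Icc 1 L.M).filter (fun c => L.u c ≤ L.p i') ⊆
      (Finset.Icc 1 L.M).filter (fun c => L.u c ≤ L.p i) := by
    intro d hd
    rw [Finset.mem_filter] at hd ⊢
    refine ⟨hd.1, hd.2.trans ?_⟩
    unfold LD.p
    omega
  have := Finset.card_le_card hs
  omega

theorem sla_e_of_le {c : ℕ} (h : c ≤ L.M) : L.e c = L.u c := if_pos h

theorem sla_e_of_gt {c : ℕ} (h : L.M < c) : L.e c = L.x0 - L.w := if_neg (by omega)

theorem sla_p_lt_e (hv : L.Valid) {i : ℕ} (h : L.b i ≤ L.M) : L.p i < L.e (L.b i) := by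
  rw [sla_e_of_le h]
  by_contra hn
  have := (sla_b_spec hv (sla_b_ge L i) h i).1 (by omega)
  omega

theorem sla_e_le_p (hv : L.Valid) {i c : ℕ} (h1 : 1 ≤ i) (h2 : i ≤ L.n) (h : c < L.b i) :
    L.e c ≤ L.p i := by
  have hb := sla_b_le L i
  have hp := sla_p hv h1 h2
  rcases Nat.eq_zero_or_pos c with h3 | h3
  · subst h3
    rw [sla_e_of_le (Nat.zero_le _), hv.u0]
    exact hp.1
  · rw [sla_e_of_le (by omega)]
    exact (sla_b_spec hv h3 (by omega) i).2 h

theorem sla_uM_le_e (hv : L.Valid) {c : ℕ} (h : L.M ≤ c) : L.u L.M ≤ L.e c := by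
  have := sla_e_mono hv h
  rwa [sla_e_of_le le_rfl] at this

theorem sla_e_le (hv : L.Valid) (c : ℕ) : L.e c ≤ L.x0 - L.w := by
  have h1 := sla_e_mono hv (show c ≤ c + L.M + 1 by omega)
  rwa [sla_e_of_gt (c := c + L.M + 1) (by omega)] at h1

theorem sla_A_le_e (hv : L.Valid) (c : ℕ) : L.A ≤ L.e c := by
  have h1 := sla_e_mono hv (Nat.zero_le c)
  rwa [sla_e_of_le (Nat.zero_le _), hv.u0] at h1

/-- intervals of different particles -/
theorem sla_dis (hv : L.Valid) {i i' t : ℕ} (h1 : 1 ≤ i) (h : i < i') (h2 : i' ≤ L.n)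
    (ht : t ≤ L.ab i) : L.hi i' t ≤ L.lo i t := by
  have hp := sla_p hv h1 (by omega)
  have hp' := sla_p hv (show 1 ≤ i' by omega) h2
  have hbi := sla_b_ge L i
  have hbi' := sla_b_ge L i'
  have hbM := sla_b_le L i
  unfold LD.ab at ht
  unfold LD.hi LD.lo
  by_cases hf' : L.cc i' t ≤ L.b i'
  · rw [if_pos hf']
    by_cases hf : L.cc i t ≤ L.b i
    · rw [if_pos hf]
      omega
    · rw [if_neg hf]
      have hcc : L.cc i t ≤ L.M + 1 := by unfold LD.cc; omega
      have h3 := sla_p_lt_e hv (i := i) (by omega)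
      have h4 := sla_e_mono hv (show L.b i ≤ L.cc i t - 1 by omega)
      omega
  · rw [if_neg hf']
    have hcc : L.cc i' t + 3 ≤ L.cc i t := by
      unfold LD.cc at hf' ⊢
      omega
    by_cases hf : L.cc i t ≤ L.b i
    · rw [if_pos hf]
      exact sla_e_le_p hv h1 (by omega) (by omega)
    · rw [if_neg hf]
      exact sla_e_mono hv (by omega)

/-- windows of active particles and intervals of particles in front -/
theorem sla_front (hv : L.Valid) {i i' t : ℕ} (h1 : 1 ≤ i') (h : i' < i) (ha : L.act i t) :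
    L.e (L.cc i t + 1) ≤ L.lo i' t := by
  obtain ⟨_, h2, h3, h4⟩ := ha
  have hbi := sla_b_ge L i
  have hcc : L.cc i t + 3 ≤ L.cc i' t := by
    unfold LD.cc at h3 h4 ⊢
    omega
  unfold LD.lo
  by_cases hf : L.cc i' t ≤ L.b i'
  · rw [if_pos hf]
    exact sla_e_le_p hv h1 (by omega) (by omega)
  · rw [if_neg hf]
    exact sla_e_mono hv (by omega)

theorem sla_lw_lo (L : LD) (i t : ℕ) : L.lw i t = L.lo i t := rfl

theorem sla_act_ab {i t : ℕ} (ha : L.act i t) : t + 1 ≤ L.ab i := by
  obtain ⟨_, _, h3, h4⟩ := ha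
  unfold LD.ab
  unfold LD.cc at h4
  omega

/-- geometry of one window -/
theorem sla_geo (hv : L.Valid) {i t : ℕ} (ha : L.act i t) :
    L.A ≤ L.lw i t ∧ L.lw i t < L.e (L.cc i t) ∧
    L.e (L.cc i t) + L.w < L.e (L.cc i t + 1) ∧ L.e (L.cc i t + 1) ≤ L.x0 - L.w ∧
    1 ≤ L.cc i t ∧ L.e (L.cc i t - 1) ≤ L.lw i t := by
  obtain ⟨h1, h2, h3, h4⟩ := ha
  have hb := sla_b_ge L i
  have hp := sla_p hv h1 h2
  have hw := hv.w1
  have hM := hv.uM
  have e1 : L.e (L.cc i t) = L.u (L.cc i t) := sla_e_of_le h4
  have hstep : L.e (L.cc i t) + L.w < L.e (L.cc i t + 1) := by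
    rw [e1]
    rcases Nat.lt_or_ge (L.cc i t) L.M with h5 | h5
    · rw [sla_e_of_le (by omega)]
      have := hv.step (L.cc i t) (by omega) h5
      omega
    · rw [sla_e_of_gt (by omega)]
      have : L.cc i t = L.M := by omega
      rw [this]
      omega
  have hlast := sla_e_le hv (L.cc i t + 1)
  refine ⟨?_, ?_, hstep, hlast, by omega, ?_⟩
  · unfold LD.lw
    split_ifs
    · exact hp.1
    · exact sla_A_le_e hv _
  · unfold LD.lw
    by_cases hf : L.cc i t ≤ L.b i
    · rw [if_pos hf]
      have h5 : L.cc i t = L.b i := by omega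
      rw [h5]
      exact sla_p_lt_e hv (by omega)
    · rw [if_neg hf, e1, sla_e_of_le (by omega)]
      exact sla_u_lt hv (by omega) h4
  · unfold LD.lw
    by_cases hf : L.cc i t ≤ L.b i
    · rw [if_pos hf]
      exact sla_e_le_p hv h1 h2 (by omega)
    · rw [if_neg hf]

theorem sla_hi_le (hv : L.Valid) {i t : ℕ} (ha : L.act i t) :
    L.hi i t ≤ L.e (L.cc i t) ∧ L.lo i t < L.hi i t := by
  have hg := sla_geo hv ha
  obtain ⟨h1, h2, h3, h4⟩ := ha
  unfold LD.hi LD.lo
  unfold LD.lw at hg
  by_cases hf : L.cc i t ≤ L.b i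
  · rw [if_pos hf] at hg ⊢
    rw [if_pos hf]
    omega
  · rw [if_neg hf] at hg ⊢
    rw [if_neg hf]
    omega

theorem sla_ql (hv : L.Valid) {j : ℕ} (h1 : 1 ≤ j) (h2 : j ≤ L.n) :
    L.x0 - 3 * L.w ≤ L.ql j ∧ L.ql j < L.x0 ∧ L.A ≤ L.ql j := by
  have hp := sla_p hv h1 h2
  have hw := hv.w1
  have hM := hv.uM
  have hA := sla_A_le_e hv L.M
  rw [sla_e_of_le le_rfl] at hA
  unfold LD.ql
  by_cases hb : L.b j = L.M + 1
  · rw [if_pos hb]
    have := sla_e_le_p hv h1 h2 (c := L.M) (by omega)
    rw [sla_e_of_le le_rfl] at this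
    omega
  · rw [if_neg hb]
    omega

theorem sla_ql_anti (hv : L.Valid) {j : ℕ} (h1 : 1 ≤ j) (h2 : j + 1 ≤ L.n) :
    L.ql (j + 1) ≤ L.ql j := by
  have hq := (sla_ql hv h1 (by omega)).1
  unfold LD.ql at hq ⊢
  by_cases hb : L.b (j + 1) = L.M + 1
  · have hb' : L.b j = L.M + 1 := by
      have := sla_b_anti L (show j ≤ j + 1 by omega)
      have := sla_b_le L j
      omega
    rw [if_pos hb, if_pos hb']
    unfold LD.p
    omega
  · rw [if_neg hb]
    exact hq

theorem sla_dl_pos {j : ℕ} (h : 1 ≤ j) : L.dl j = max (L.ql j) (L.x0 - L.w) := by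
  unfold LD.dl
  rw [if_neg (by omega)]

theorem sla_dl (hv : L.Valid) {j : ℕ} (h1 : 1 ≤ j) (h2 : j ≤ L.n) :
    L.dl j ≤ L.dl (j - 1) ∧ L.ql j ≤ L.dl j := by
  have hq := sla_ql hv h1 h2
  have hw := hv.w1
  rw [sla_dl_pos h1]
  refine ⟨?_, le_max_left _ _⟩
  rcases Nat.lt_or_ge 1 j with h3 | h3
  · rw [sla_dl_pos (show 1 ≤ j - 1 by omega)]
    have h4 := sla_ql_anti hv (show 1 ≤ j - 1 by omega) (by omega)
    rw [show j - 1 + 1 = j by omega] at h4
    omega
  · have h4 : j = 1 := by omega
    subst h4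
    unfold LD.dl
    rw [if_pos rfl]
    omega

theorem sla_dl_ge (hv : L.Valid) (j : ℕ) : L.x0 - L.w ≤ L.dl j := by
  unfold LD.dl
  split_ifs <;> omega

theorem sla_dl_le (hv : L.Valid) {j : ℕ} (h2 : j ≤ L.n) : L.dl j ≤ L.x0 := by
  unfold LD.dl
  split_ifs with h
  · exact le_rfl
  · have := (sla_ql hv (show 1 ≤ j by omega) h2).2.1
    omega

theorem sla_na_ab {j : ℕ} (h1 : 1 ≤ j) (h2 : j ≤ L.n) : L.na (L.ab j) = j - 1 := by
  unfold LD.na LD.ab
  have : (Finset.Icc 1 L.n).filter (fun i => 3 * i + L.s + L.M + 1 < 3 * j + L.s + L.M + 1) =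
      Finset.Icc 1 (j - 1) := by
    ext i
    rw [Finset.mem_filter, Finset.mem_Icc, Finset.mem_Icc]
    omega
  rw [this, Nat.card_Icc]
  omega

theorem sla_na_ab_succ {j : ℕ} (h1 : 1 ≤ j) (h2 : j ≤ L.n) : L.na (L.ab j + 1) = j := by
  unfold LD.na LD.ab
  have : (Finset.Icc 1 L.n).filter (fun i => 3 * i + L.s + L.M + 1 < 3 * j + L.s + L.M + 1 + 1) =
      Finset.Icc 1 j := by
    ext i
    rw [Finset.mem_filter, Finset.mem_Icc, Finset.mem_Icc]
    omega
  rw [this, Nat.card_Icc]
  omega

theorem sla_na_le (L : LD) (t : ℕ) : L.na t ≤ L.n := by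
  unfold LD.na
  have h := Finset.card_filter_le (Finset.Icc 1 L.n) (fun i => L.ab i < t)
  rw [Nat.card_Icc] at h
  omega

theorem sla_na_succ {t : ℕ} (h : ∀ j, 1 ≤ j → j ≤ L.n → t ≠ L.ab j) : L.na (t + 1) = L.na t := by
  unfold LD.na
  congr 1
  ext i
  rw [Finset.mem_filter, Finset.mem_filter, Finset.mem_Icc]
  constructor
  · rintro ⟨h1, h2⟩
    refine ⟨h1, ?_⟩
    have := h i h1.1 h1.2
    omega
  · rintro ⟨h1, h2⟩
    exact ⟨h1, by omega⟩

/-- frozen particles -/
theorem sla_frozen {i t : ℕ} (h1 : 1 ≤ i) (h2 : i ≤ L.n) (ht : t + 1 ≤ L.ab i)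
    (hn : ¬ L.act i t) : L.cc i t < L.b i ∧ L.lo i t = L.p i ∧ L.hi i t = L.p i + 1 ∧
      L.lo i (t + 1) = L.p i ∧ L.hi i (t + 1) = L.p i + 1 := by
  have hc : L.cc i t ≤ L.M := by
    unfold LD.ab at ht
    unfold LD.cc
    omega
  have hb : L.cc i t < L.b i := by
    by_contra h
    exact hn ⟨h1, h2, by omega, hc⟩
  have hb' : L.cc i (t + 1) ≤ L.b i := by
    unfold LD.cc at hb ⊢
    omega
  refine ⟨hb, ?_, ?_, ?_, ?_⟩
  · unfold LD.lo; rw [if_pos hb.le]
  · unfold LD.hi; rw [if_pos hb.le]
  · unfold LD.lo; rw [if_pos hb']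
  · unfold LD.hi; rw [if_pos hb']

end LD

theorem sla_cnt_add {N : ℕ} (η : Cfg N) {a b c : ℕ} (h1 : a ≤ b) (h2 : b ≤ c) :
    cnt η a c = cnt η a b + cnt η b c := by
  unfold cnt
  rw [Finset.sum_Ico_consecutive _ h1 h2]

theorem sla_cnt_zero {N : ℕ} (η : Cfg N) {a b : ℕ} (h : ∀ x, a ≤ x → x < b → occ η x = false) :
    cnt η a b = 0 := by
  unfold cnt
  apply Finset.sum_eq_zero
  intro x hx
  rw [Finset.mem_Ico] at hx
  rw [h x hx.1 hx.2]
  simp

theorem sla_cnt_ex {N : ℕ} (η : Cfg N) {a b : ℕ} (h : cnt η a b = 1) :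
    ∃ x, a ≤ x ∧ x < b ∧ occ η x = true := by
  by_contra hn
  push Not at hn
  have := sla_cnt_zero η (a := a) (b := b) (fun x h1 h2 => by
    have := hn x h1 h2
    simpa using this)
  omega

theorem sla_cnt_single {N : ℕ} (η : Cfg N) (a : ℕ) :
    cnt η a (a + 1) = 1 ↔ occ η a = true := by
  unfold cnt
  rw [Nat.Ico_succ_singleton, Finset.sum_singleton]
  by_cases h : occ η a = true <;> simp [h]

theorem st_SLA : ST_SLA := by
  intro N L hv hN
  refine ⟨fun t i ha => LD.sla_geo hv ha, ?_, ?_, fun j h1 h2 => LD.sla_ql hv h1 h2, ?_, ?_, ?_, ?_, ?_,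
    fun j h1 h2 => LD.sla_dl hv h1 h2⟩
  · intro t i i' ha ha' h
    exact LD.sla_front hv ha.1 h ha'
  · intro t i j h1 h2 ht ha
    have hcc : L.cc i t + 3 ≤ L.M + 1 := by
      have h3 := ha.2.2.2
      have h4 := (LD.sla_geo hv ha).2.2.2.2.1
      rw [ht] at h3 h4 ⊢
      unfold LD.cc LD.ab at h3 h4 ⊢
      omega
    have h5 := LD.sla_e_mono hv (show L.cc i t + 1 ≤ L.M by omega)
    rw [LD.sla_e_of_le le_rfl] at h5
    have h6 := (LD.sla_ql hv h1 h2).1
    have h7 := hv.uM
    omega
  · -- content of the windows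
    intro t i η ha hη
    have hg := LD.sla_geo hv ha
    have hh := LD.sla_hi_le hv ha
    have hab := LD.sla_act_ab ha
    have h1 : cnt η (L.lo i t) (L.hi i t) = 1 := hη.1 i ha.1 ha.2.1 (by omega)
    have h2 : cnt η (L.hi i t) (L.e (L.cc i t + 1)) = 0 := by
      apply sla_cnt_zero
      intro x hx1 hx2
      apply hη.2 x
      · have := hg.1
        have e : L.lw i t = L.lo i t := rfl
        omega
      · have := LD.sla_dl_ge hv (L.na t)
        omega
      · rintro i' hi1 hi2 hi3 ⟨hi4, hi5⟩
        rcases lt_trichotomy i' i with h | h | h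
        · have := LD.sla_front hv hi1 h ha
          omega
        · subst h
          omega
        · have := LD.sla_dis hv ha.1 h hi2 (show t ≤ L.ab i by omega)
          omega
    have h3 := sla_cnt_add η (a := L.lo i t) (b := L.hi i t) (c := L.e (L.cc i t + 1))
      (by omega) (by omega)
    refine ⟨by rw [LD.sla_lw_lo]; omega, ?_⟩
    obtain ⟨x, hx1, hx2, hx3⟩ := sla_cnt_ex η h1
    exact ⟨x, hx1, by omega, hx3⟩
  · -- absorption window
    intro j η h1 h2 hη
    have hna := LD.sla_na_ab (L := L) h1 h2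
    have hdl := LD.sla_dl hv h1 h2
    have hcc : L.cc j (L.ab j) = L.M + 1 := by
      unfold LD.cc LD.ab
      omega
    have hbM := LD.sla_b_le L j
    have hM := hv.uM
    have hp := LD.sla_p hv h1 h2
    have hq := LD.sla_ql hv h1 h2
    have hlo : L.lo j (L.ab j) = L.ql j := by
      unfold LD.lo LD.ql
      rw [hcc]
      by_cases hb : L.b j = L.M + 1
      · rw [if_pos (by omega), if_pos hb]
      · rw [if_neg (by omega), if_neg hb, Nat.add_sub_cancel, LD.sla_e_of_le le_rfl]
        omega
    have hhi : L.hi j (L.ab j) ≤ L.dl (j - 1) ∧ L.ql j ≤ L.hi j (L.ab j) := by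
      unfold LD.hi
      rw [hcc]
      by_cases hb : L.b j = L.M + 1
      · rw [if_pos (by omega)]
        have hqj : L.ql j = L.p j := by unfold LD.ql; rw [if_pos hb]
        refine ⟨?_, by omega⟩
        rcases Nat.lt_or_ge 1 j with h3 | h3
        · rw [LD.sla_dl_pos (show 1 ≤ j - 1 by omega)]
          have hb' : L.b (j - 1) = L.M + 1 := by
            have := LD.sla_b_anti L (show j - 1 ≤ j by omega)
            have := LD.sla_b_le L (j - 1)
            omega
          have hqj' : L.ql (j - 1) = L.p (j - 1) := by unfold LD.ql; rw [if_pos hb']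
          have hp' := LD.sla_p hv (show 1 ≤ j - 1 by omega) (by omega)
          rw [hqj']
          have := le_max_left (L.p (j - 1)) (L.x0 - L.w)
          omega
        · have h4 : j - 1 = 0 := by omega
          rw [h4]
          unfold LD.dl
          rw [if_pos rfl]
          omega
      · rw [if_neg (by omega), LD.sla_e_of_gt (by omega)]
        have := LD.sla_dl_ge hv (j - 1)
        have hqj : L.ql j = L.x0 - 3 * L.w := by unfold LD.ql; rw [if_neg hb]
        omega
    refine ⟨by omega, hna, ?_⟩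
    have h3 : cnt η (L.lo j (L.ab j)) (L.hi j (L.ab j)) = 1 := hη.1 j h1 h2 le_rfl
    have h4 : cnt η (L.hi j (L.ab j)) (L.dl (j - 1)) = 0 := by
      apply sla_cnt_zero
      intro x hx1 hx2
      apply hη.2 x
      · omega
      · rw [hna]
        exact hx2
      · rintro i' hi1 hi2 hi3 ⟨hi4, hi5⟩
        rcases lt_trichotomy i' j with h | h | h
        · unfold LD.ab at hi3
          omega
        · subst h
          omega
        · have := LD.sla_dis hv h1 h hi2 (show L.ab j ≤ L.ab j from le_rfl)
          omega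
    have h5 := sla_cnt_add η (a := L.lo j (L.ab j)) (b := L.hi j (L.ab j)) (c := L.dl (j - 1))
      (by omega) (by omega)
    rw [← hlo]
    omega
  · -- next pattern
    intro t η ξ hη hact hout habs
    constructor
    · intro i h1 h2 ht
      by_cases ha : L.act i t
      · have hg := LD.sla_geo hv ha
        have hcc : L.cc i (t + 1) = L.cc i t + 1 := by
          have := hg.2.2.2.2.1
          unfold LD.cc at this ⊢
          omega
        have hlo : L.lo i (t + 1) = L.e (L.cc i t) := by
          unfold LD.lo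
          rw [hcc, if_neg (by have := ha.2.2.1; omega), Nat.add_sub_cancel]
        have hhi : L.hi i (t + 1) = L.e (L.cc i t + 1) := by
          unfold LD.hi
          rw [hcc, if_neg (by have := ha.2.2.1; omega)]
        rw [hlo, hhi]
        obtain ⟨h3, h4⟩ := hact i ha
        have h5 := sla_cnt_add ξ (a := L.lw i t) (b := L.e (L.cc i t)) (c := L.e (L.cc i t + 1))
          (by omega) (by omega)
        have h6 := sla_cnt_zero ξ h4
        omega
      · obtain ⟨hcb, e1, e2, e3, e4⟩ := LD.sla_frozen h1 h2 ht ha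
        rw [e3, e4, sla_cnt_single]
        have hp := LD.sla_p hv h1 h2
        have h3 := hη.1 i h1 h2 (by omega)
        rw [e1, e2, sla_cnt_single] at h3
        rw [hout (L.p i) hp.1 hp.2.1, h3]
        · rintro i' ha' ⟨h4, h5⟩
          rcases lt_trichotomy i' i with h | h | h
          · have h6 := LD.sla_dis hv ha'.1 h h2 (show t ≤ L.ab i' by
              have := LD.sla_act_ab ha'; omega)
            have e : L.lw i' t = L.lo i' t := rfl
            omega
          · subst h
            exact ha ha'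
          · have hg' := (LD.sla_geo hv ha').2.2.2.2.1
            have hcc : L.cc i' t + 3 ≤ L.cc i t := by
              unfold LD.cc at hg' ⊢
              omega
            have := LD.sla_e_le_p hv h1 h2 (c := L.cc i' t + 1) (by omega)
            omega
        · intro j hj1 hj2 hj
          have hji : j < i := by
            rw [hj] at ht
            unfold LD.ab at ht
            omega
          have hbi := LD.sla_b_anti L hji.le
          unfold LD.ql
          by_cases hb : L.b j = L.M + 1
          · rw [if_pos hb]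
            have := LD.sla_p hv hj1 hj2
            omega
          · rw [if_neg hb]
            have hbj := LD.sla_b_le L j
            have h4 := LD.sla_p_lt_e hv (i := i) (by omega)
            have h5 := LD.sla_e_mono hv (show L.b i ≤ L.M by omega)
            rw [LD.sla_e_of_le le_rfl] at h5
            have := hv.uM
            omega
    · intro x hx1 hx2 hx3
      by_cases hA : ∃ i, L.act i t ∧ L.lw i t ≤ x ∧ x < L.e (L.cc i t + 1)
      · obtain ⟨i, ha, h1, h2⟩ := hA
        have hg := LD.sla_geo hv ha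
        have hcc : L.cc i (t + 1) = L.cc i t + 1 := by
          have := hg.2.2.2.2.1
          unfold LD.cc at this ⊢
          omega
        have hlo : L.lo i (t + 1) = L.e (L.cc i t) := by
          unfold LD.lo
          rw [hcc, if_neg (by have := ha.2.2.1; omega), Nat.add_sub_cancel]
        have hhi : L.hi i (t + 1) = L.e (L.cc i t + 1) := by
          unfold LD.hi
          rw [hcc, if_neg (by have := ha.2.2.1; omega)]
        have h3 := hx3 i ha.1 ha.2.1 (LD.sla_act_ab ha)
        rw [hlo, hhi] at h3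
        exact (hact i ha).2 x h1 (by omega)
      · push Not at hA
        have hkey : ∀ i, 1 ≤ i → i ≤ L.n → t + 1 ≤ L.ab i → ¬ (L.lo i t ≤ x ∧ x < L.hi i t) := by
          rintro i h1 h2 h3 ⟨h4, h5⟩
          by_cases ha : L.act i t
          · have h6 := hA i ha h4
            have h7 := LD.sla_hi_le hv ha
            have hg := LD.sla_geo hv ha
            omega
          · obtain ⟨hcb, e1, e2, e3, e4⟩ := LD.sla_frozen h1 h2 h3 ha
            have h6 := hx3 i h1 h2 h3
            rw [e3, e4] at h6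
            rw [e1] at h4
            rw [e2] at h5
            exact h6 ⟨h4, h5⟩
        have hout' : ∀ i, L.act i t → ¬ (L.lw i t ≤ x ∧ x < L.e (L.cc i t + 1)) := by
          rintro i ha ⟨h1, h2⟩
          have := hA i ha h1
          omega
        by_cases hB : ∃ j, 1 ≤ j ∧ j ≤ L.n ∧ t = L.ab j
        · obtain ⟨j, hj1, hj2, hj⟩ := hB
          have hna : L.na (t + 1) = j := by rw [hj]; exact LD.sla_na_ab_succ hj1 hj2
          have hna' : L.na t = j - 1 := by rw [hj]; exact LD.sla_na_ab hj1 hj2
          rw [hna, LD.sla_dl_pos hj1] at hx2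
          by_cases hq : L.ql j ≤ x
          · exact habs j hj1 hj2 hj x hq (by omega)
          · have hqq := LD.sla_ql hv hj1 hj2
            have hdl := LD.sla_dl hv hj1 hj2
            have huniq : ∀ j', 1 ≤ j' → j' ≤ L.n → t = L.ab j' → x < L.ql j' := by
              intro j' _ _ hj'
              have : j' = j := by
                rw [hj] at hj'
                unfold LD.ab at hj'
                omega
              rw [this]
              omega
            rw [hout x hx1 (by omega) hout' huniq]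
            apply hη.2 x hx1
            · rw [hna']
              omega
            · rintro i h1 h2 h3 ⟨h4, h5⟩
              rcases Nat.lt_or_ge j i with h | h
              · exact hkey i h1 h2 (by rw [hj]; unfold LD.ab; omega) ⟨h4, h5⟩
              · have hij : i = j := by
                  rw [hj] at h3
                  unfold LD.ab at h3
                  omega
                subst hij
                have hcc : L.cc i t = L.M + 1 := by
                  rw [hj]
                  unfold LD.cc LD.ab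
                  omega
                have hbM := LD.sla_b_le L i
                have hM := hv.uM
                have hlo : L.lo i t = L.ql i := by
                  unfold LD.lo LD.ql
                  rw [hcc]
                  by_cases hb : L.b i = L.M + 1
                  · rw [if_pos (by omega), if_pos hb]
                  · rw [if_neg (by omega), if_neg hb, Nat.add_sub_cancel, LD.sla_e_of_le le_rfl]
                    omega
                omega
        · push Not at hB
          rw [LD.sla_na_succ hB] at hx2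
          have hx0 := LD.sla_dl_le hv (LD.sla_na_le L t)
          rw [hout x hx1 (by omega) hout' (fun j h1 h2 h3 => absurd h3 (hB j h1 h2))]
          apply hη.2 x hx1 hx2
          rintro i h1 h2 h3 h4
          have := hB i h1 h2
          exact hkey i h1 h2 (by omega) h4
  · -- initial pattern
    intro η hη
    constructor
    · intro i h1 h2 _
      have hp := LD.sla_p hv h1 h2
      have hcc : L.cc i 0 ≤ L.b i := by
        unfold LD.cc
        omega
      unfold LD.lo LD.hi
      rw [if_pos hcc, if_pos hcc, sla_cnt_single]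
      exact (hη _ hp.1 hp.2.1).2 (by omega)
    · intro x hx1 hx2 hx3
      have hx0 := LD.sla_dl_le hv (LD.sla_na_le L 0)
      by_contra hn
      have hocc : occ η x = true := by simpa using hn
      have h1 := (hη x hx1 (by omega)).1 hocc
      have hcc : L.cc (L.A + L.n - x) 0 ≤ L.b (L.A + L.n - x) := by
        unfold LD.cc
        omega
      apply hx3 (L.A + L.n - x) (by omega) (by omega) (Nat.zero_le _)
      unfold LD.lo LD.hi
      rw [if_pos hcc, if_pos hcc]
      unfold LD.p
      omega
  · -- final pattern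
    intro η hn1 hη x hx1 hx2
    apply hη.2 x hx1
    · have := LD.sla_dl_ge hv (L.na (L.ab L.n + 1))
      omega
    · intro i h1 h2 h3
      unfold LD.ab at h3
      omega

end Pool.Agent.Helper98.EX
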